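import Pool.Agent.Helper73.LL.Goals

/-! Packet LL-NA. -/

namespace Pool.Agent.Helper34.LL

open Pool.Agent.Helper73.LL

theorem r1_large {n : ℕ} {L ell e θ x : ℝ} {p r N q l r1 F1 F2 f : ℕ}
    (h : NC n L ell e θ x p r N q l r1 F1 F2 f) :
    (10 : ℝ) ^ 7 ≤ r1 ∧ (10 : ℝ) ^ 7 ≤ θ ^ 2 * r1 := by
  have hL := h.hL
  have hell := h.hell
  have hell2 := h.hell2
  have hL0 : (0 : ℝ) < L := by linarith
  have hr0 : (0 : ℝ) < r := by
    have := h.hpr
    have h2 : 0 < r := by omega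
    exact_mod_cast h2
  have hN2 : (N : ℝ) * p ≤ 4 * r := by exact_mod_cast h.hN2
  have hp0 : (0 : ℝ) ≤ p := Nat.cast_nonneg _
  have hr10 : (0 : ℝ) ≤ r1 := Nat.cast_nonneg _
  have h1 : ell * p ≤ 256 * L * (r1 + 1) := by
    have h2 : (r * ell) * p ≤ (64 * L * N * (r1 + 1)) * p :=
      mul_le_mul_of_nonneg_right h.hr2 hp0
    have h3 : (64 * L * N * (r1 + 1)) * p = 64 * L * (r1 + 1) * (N * p) := by ring
    have h4 : 64 * L * (r1 + 1) * (N * p) ≤ 64 * L * (r1 + 1) * (4 * r) :=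
      mul_le_mul_of_nonneg_left hN2 (by positivity)
    have h5 : r * (ell * p) ≤ r * (256 * L * (r1 + 1)) := by
      calc r * (ell * p) = (r * ell) * p := by ring
        _ ≤ 64 * L * (r1 + 1) * (N * p) := by rw [← h3]; exact h2
        _ ≤ 64 * L * (r1 + 1) * (4 * r) := h4
        _ = r * (256 * L * (r1 + 1)) := by ring
    exact le_of_mul_le_mul_left h5 hr0
  have h2 : Real.exp (L / 50) * (L ^ 2 / 8) ≤ 2 * p := by
    refine le_trans ?_ h.hp2
    have h3 : L ^ 2 / 8 ≤ Real.exp (L / 2) := by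
      have := Real.quadratic_le_exp_of_nonneg (show (0 : ℝ) ≤ L / 2 by linarith)
      nlinarith
    calc Real.exp (L / 50) * (L ^ 2 / 8) ≤ Real.exp (L / 50) * Real.exp (L / 2) :=
          mul_le_mul_of_nonneg_left h3 (Real.exp_pos _).le
      _ = Real.exp (L / 50 + L / 2) := by rw [Real.exp_add]
      _ ≤ Real.exp (L - ell) := by
          apply Real.exp_le_exp.mpr
          linarith
  have hE : 1 ≤ Real.exp (L / 50) := by
    apply Real.one_le_exp
    linarith
  have h3 : 2 * (10 : ℝ) ^ 7 * Real.exp (L / 50) ≤ r1 + 1 := by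
    have h4 : 1000 * (Real.exp (L / 50) * (L ^ 2 / 8)) ≤ 2 * (256 * L * (r1 + 1)) := by
      calc 1000 * (Real.exp (L / 50) * (L ^ 2 / 8)) ≤ ell * (2 * p) :=
            mul_le_mul hell h2 (by positivity) (by linarith)
        _ = 2 * (ell * p) := by ring
        _ ≤ 2 * (256 * L * (r1 + 1)) := by linarith
    have h5 : L * (125 * Real.exp (L / 50) * L) ≤ L * (512 * (r1 + 1)) := by nlinarith
    have h6 := le_of_mul_le_mul_left h5 hL0
    have h7 : 125 * Real.exp (L / 50) * 10 ^ 8 ≤ 125 * Real.exp (L / 50) * L :=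
      mul_le_mul_of_nonneg_left hL (by positivity)
    linarith
  have h4 : (10 : ℝ) ^ 7 * Real.exp (L / 50) ≤ r1 := by
    have : (1 : ℝ) ≤ 10 ^ 7 * Real.exp (L / 50) := by nlinarith
    linarith
  refine ⟨le_trans (by nlinarith) h4, ?_⟩
  have h5 : θ ^ 2 * (10 ^ 7 * Real.exp (L / 100)) ≤ θ ^ 2 * r1 := by
    refine mul_le_mul_of_nonneg_left (le_trans ?_ h4) (sq_nonneg _)
    refine mul_le_mul_of_nonneg_left (Real.exp_le_exp.mpr (by linarith)) (by positivity)
  have h6 := h.hθ2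
  nlinarith

theorem conv1 {x e : ℝ} (hx : 0 ≤ x) (hx1 : x ≤ 1) (he : 0 < e) (he1 : e ≤ 1 / 200) :
    -Real.log (1 - x * e / 2) ≤ x * (-Real.log (1 - e / 2)) := by
  have h := strictConcaveOn_log_Ioi.concaveOn.2 (show (1 : ℝ) ∈ Set.Ioi (0 : ℝ) by simp)
    (show (1 - e / 2 : ℝ) ∈ Set.Ioi (0 : ℝ) by simp only [Set.mem_Ioi]; linarith)
    (show (0 : ℝ) ≤ 1 - x by linarith) hx (by ring)
  simp only [smul_eq_mul, Real.log_one, mul_zero, zero_add] at h
  have h2 : (1 - x) * 1 + x * (1 - e / 2) = 1 - x * e / 2 := by ring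
  rw [h2] at h
  linarith

theorem conv2 {x e : ℝ} (hx : 0 ≤ x) (hx1 : x ≤ 1) (he : 0 < e) (he1 : e ≤ 1 / 200) :
    -Real.log (1 - xV x * e / 2) ≤ (1 - (1 - x) / 12) * (-Real.log (1 - x * e / 2)) +
      (1 - x) / 12 * (-Real.log (1 - e / 2)) - (1 - x) ^ 2 / 24 * (e / 2) := by
  have hxe : x * e ≤ 1 / 200 := by nlinarith
  have h := strictConcaveOn_log_Ioi.concaveOn.2
    (show (1 - x * e / 2 : ℝ) ∈ Set.Ioi (0 : ℝ) by simp only [Set.mem_Ioi]; linarith)
    (show (1 - e / 2 : ℝ) ∈ Set.Ioi (0 : ℝ) by simp only [Set.mem_Ioi]; linarith)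
    (show (0 : ℝ) ≤ 1 - (1 - x) / 12 by linarith) (show (0 : ℝ) ≤ (1 - x) / 12 by linarith)
    (by ring)
  simp only [smul_eq_mul] at h
  set C : ℝ := (1 - (1 - x) / 12) * (1 - x * e / 2) + (1 - x) / 12 * (1 - e / 2) with hC
  have hC0 : 0 < C := by
    have h1 : 1 - x * e / 2 ≥ 1 / 2 := by linarith
    have h2 : 1 - e / 2 ≥ 1 / 2 := by linarith
    have h3 : (0 : ℝ) ≤ 1 - (1 - x) / 12 := by linarith
    have h4 : (0 : ℝ) ≤ (1 - x) / 12 := by linarith
    nlinarith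
  have hV : 1 - xV x * e / 2 = C + (1 - x) ^ 2 / 24 * (e / 2) := by
    rw [hC]; unfold xV; ring
  set δ : ℝ := (1 - x) ^ 2 / 24 * (e / 2) with hδ
  have hδ0 : 0 ≤ δ := by positivity
  have hle : C + δ ≤ 1 := by
    rw [← hV]
    have : 0 ≤ xV x * e := by unfold xV; positivity
    linarith
  have h5 : Real.log (C / (C + δ)) ≤ C / (C + δ) - 1 :=
    Real.log_le_sub_one_of_pos (by positivity)
  rw [Real.log_div hC0.ne' (by positivity)] at h5
  have h6 : C / (C + δ) - 1 ≤ -δ := by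
    rw [div_sub_one (by positivity), div_le_iff₀ (by positivity)]
    nlinarith
  rw [hV]
  linarith

theorem aux1 {e : ℝ} (he : 0 < e) (he1 : e ≤ 1 / 200) : 1 ≤ (e + 1) * (1 - e / 2) := by
  nlinarith

theorem aux2 {x : ℝ} (hx : 0 ≤ x) (hx1 : x ≤ 1) : xV x ≤ 1 := by
  unfold xV
  nlinarith

theorem aux3 {x e : ℝ} (hx1 : x ≤ 1) (he : 0 < e) (he1 : e ≤ 1 / 200) : x * e ≤ 1 / 200 := by
  nlinarith

theorem aux4 {x eps : ℝ} (hx : 0 ≤ x) (hx1 : x ≤ 1) (he : 0 ≤ eps) (he1 : eps ≤ 1 / 200) :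
    x * (2 * eps) ≤ 1 := by
  nlinarith

theorem aux5 {a b c : ℝ} (h : a ≤ b) (h0 : 0 ≤ c) : a * c ≤ b * c :=
  mul_le_mul_of_nonneg_right h h0

theorem NA : S_NA := by
  intro n L ell e θ x p r N q l r1 F1 F2 f h
  obtain ⟨hr1, hr2⟩ := r1_large h
  have hL := h.hL
  have hell := h.hell
  have hell2 := h.hell2
  have he := h.he
  have he1 := h.he1
  have hL0 : (0 : ℝ) < L := by linarith
  have hθ := h.hθ
  have hx0 := h.hx
  have hx1 := h.hx1
  have hθ0 : 0 < θ := by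
    by_contra hc
    push Not at hc
    have : θ * L ≤ 0 := mul_nonpos_of_nonpos_of_nonneg hc hL0.le
    linarith
  have hx1' : x ≤ 1 := by linarith
  set eps : ℝ := -Real.log (1 - e / 2) with heps
  have heps0 : 0 ≤ eps := by
    rw [heps]
    have := Real.log_nonpos (show (0 : ℝ) ≤ 1 - e / 2 by linarith) (by linarith)
    linarith
  have hepsle : eps ≤ e := by
    have h1 : Real.log (1 / (1 - e / 2)) ≤ 1 / (1 - e / 2) - 1 :=
      Real.log_le_sub_one_of_pos (one_div_pos.mpr (by linarith))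
    rw [one_div, Real.log_inv] at h1
    refine le_trans h1 ?_
    rw [sub_le_iff_le_add, ← one_div, div_le_iff₀ (by linarith)]
    exact aux1 he he1
  have hc1 := conv1 hx0 hx1' he he1
  have hc2 := conv2 hx0 hx1' he he1
  rw [← heps] at hc1 hc2
  set ph : ℝ := -Real.log (1 - x * e / 2) with hph
  set pv : ℝ := -Real.log (1 - xV x * e / 2) with hpv
  set g : ℝ := 2 * l * eps with hg
  set W : ℝ := r1 * L with hW
  set xi : ℝ := 2 * l * ph with hxi
  set v : ℝ := 2 * l * pv with hv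
  have hl0 : (0 : ℝ) ≤ 2 * l := by positivity
  have hgW : W ≤ g := h.hl1
  have hgW2 : g ≤ W + 2 * eps := h.hl2
  have hxixg : xi ≤ x * g := by
    rw [hxi, hg]
    calc 2 * (l : ℝ) * ph ≤ 2 * l * (x * eps) := mul_le_mul_of_nonneg_left hc1 hl0
      _ = x * (2 * l * eps) := by ring
  have hvle : v ≤ (1 - (1 - x) / 12) * xi + (1 - x) / 12 * g - (1 - x) ^ 2 / 24 * (l * e) := by
    rw [hv, hxi, hg]
    calc 2 * (l : ℝ) * pv ≤ 2 * l * ((1 - (1 - x) / 12) * ph + (1 - x) / 12 * eps -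
          (1 - x) ^ 2 / 24 * (e / 2)) := mul_le_mul_of_nonneg_left hc2 hl0
      _ = _ := by ring
  -- a
  have hF2 : Real.exp (L - 3 / 4 * ell) ≤ F2 := h.hF2
  have hF20 : (0 : ℝ) < F2 := lt_of_lt_of_le (Real.exp_pos _) hF2
  have hlogF2 : L - 3 / 4 * ell ≤ Real.log F2 := by
    rw [← Real.log_exp (L - 3 / 4 * ell)]
    exact Real.log_le_log (Real.exp_pos _) hF2
  set la : ℝ := Real.log 2 + r1 * (Real.log 2 - Real.log F2) with hla
  have haexp : 2 * (2 / (F2 : ℝ)) ^ r1 = Real.exp la := by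
    rw [hla, Real.exp_add, Real.exp_log (by norm_num), Real.exp_nat_mul,
      ← Real.log_div (by norm_num) hF20.ne', Real.exp_log (by positivity)]
  have hlog2 : Real.log 2 ≤ 0.6932 := by
    have := Real.log_two_lt_d9
    linarith
  have hlog2' : 0.6931 ≤ Real.log 2 := by
    have := Real.log_two_gt_d9
    linarith
  have hlale : la ≤ 0.6932 - W + r1 * (3 / 4 * ell + 0.6932) := by
    have h1 : (r1 : ℝ) * (Real.log 2 - Real.log F2) ≤ r1 * (0.6932 - (L - 3 / 4 * ell)) :=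
      mul_le_mul_of_nonneg_left (by linarith) (Nat.cast_nonneg _)
    have h2 : (r1 : ℝ) * (0.6932 - (L - 3 / 4 * ell)) = - W + r1 * (3 / 4 * ell + 0.6932) := by
      rw [hW]; ring
    linarith
  have hxL : 100 * ell ≤ (1 - x) * L := by
    refine le_trans hθ (mul_le_mul_of_nonneg_right (by linarith) hL0.le)
  have hr10 : (0 : ℝ) < r1 := by linarith
  have hlaxi : la + xi ≤ 0 := by
    have h1 : xi ≤ x * (W + 2 * eps) := le_trans hxixg (mul_le_mul_of_nonneg_left hgW2 hx0)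
    have h2 : r1 * (100 * ell) ≤ r1 * ((1 - x) * L) := mul_le_mul_of_nonneg_left hxL hr10.le
    have h3 : x * (2 * eps) ≤ 1 := aux4 hx0 hx1' heps0 (by linarith)
    have h4 : r1 * (3 / 4 * ell + 0.6932) ≤ r1 * (2 * ell) :=
      mul_le_mul_of_nonneg_left (by linarith) hr10.le
    have h5 : (10 : ℝ) ^ 7 * 1000 ≤ r1 * ell := mul_le_mul hr1 hell (by norm_num) hr10.le
    have h6 : r1 * ((1 - x) * L) = W - x * W := by rw [hW]; ring
    have h7 : x * (W + 2 * eps) = x * W + x * (2 * eps) := by ring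
    linarith
  -- xi, v as exponents
  have hxe : x * e ≤ 1 / 200 := aux3 hx1' he he1
  have hX : (1 - x * e / 2) ^ (2 * l) = Real.exp (-xi) := by
    rw [hxi, hph]
    have h1 : -(2 * (l : ℝ) * -Real.log (1 - x * e / 2)) =
        ((2 * l : ℕ) : ℝ) * Real.log (1 - x * e / 2) := by push_cast; ring
    rw [h1, Real.exp_nat_mul, Real.exp_log (by linarith)]
  have hxV0 : 0 ≤ xV x := by unfold xV; positivity
  have hxV1 : xV x ≤ 1 := aux2 hx0 hx1'
  have hVpos : 0 < 1 - xV x * e / 2 := by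
    have := aux3 hxV1 he he1
    linarith
  have hXV : (1 - xV x * e / 2) ^ (4 * l) = Real.exp (-(2 * v)) := by
    rw [hv, hpv]
    have h1 : -(2 * (2 * (l : ℝ) * -Real.log (1 - xV x * e / 2))) =
        ((4 * l : ℕ) : ℝ) * Real.log (1 - xV x * e / 2) := by push_cast; ring
    rw [h1, Real.exp_nat_mul, Real.exp_log hVpos]
  -- q
  have hN4 : (4 : ℝ) ≤ N := by exact_mod_cast h.hN4
  have hqN : q + 1 ≤ 2 * N := by
    have h1 : (q : ℝ) ≤ N := by
      have h2 := h.hq1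
      have h3 : (1 - x) * N ≤ 1 * N := aux5 (by linarith) (by linarith)
      linarith
    have h2 : q ≤ N := by exact_mod_cast h1
    have := h.hN4
    omega
  rw [haexp, hX, hXV]
  set k : ℕ := 2 * N - (q + 1) with hk
  have hkq : k + (q + 1) = 2 * N := by omega
  have hkqR : (k : ℝ) + (q + 1) = 2 * N := by exact_mod_cast hkq
  have hsum : Real.exp (-xi) + Real.exp la ≤ 2 * Real.exp (-xi) := by
    have : Real.exp la ≤ Real.exp (-xi) := Real.exp_le_exp.mpr (by linarith)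
    linarith
  have hk2 : (2 : ℝ) ^ k ≤ 4 ^ N := by
    calc (2 : ℝ) ^ k ≤ 2 ^ (2 * N) := pow_le_pow_right₀ (by norm_num) (by omega)
      _ = 4 ^ N := by rw [pow_mul]; norm_num
  have hlog8 : Real.exp (3 * Real.log 2) = 8 := by
    have : (3 : ℝ) * Real.log 2 = Real.log 8 := by
      rw [show (8 : ℝ) = 2 ^ 3 by norm_num, Real.log_pow]; norm_num
    rw [this, Real.exp_log (by norm_num)]
  have hL1 : (2 : ℝ) ^ N * (Real.exp la ^ (q + 1) * (Real.exp (-xi) + Real.exp la) ^ k) ≤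
      Real.exp (N * (3 * Real.log 2) + ((q + 1) * la - k * xi)) := by
    calc (2 : ℝ) ^ N * (Real.exp la ^ (q + 1) * (Real.exp (-xi) + Real.exp la) ^ k)
        ≤ 2 ^ N * (Real.exp la ^ (q + 1) * (2 * Real.exp (-xi)) ^ k) := by
          gcongr
      _ = 2 ^ N * (2 ^ k) * (Real.exp la ^ (q + 1) * Real.exp (-xi) ^ k) := by
          rw [mul_pow]; ring
      _ ≤ 2 ^ N * 4 ^ N * (Real.exp la ^ (q + 1) * Real.exp (-xi) ^ k) := by
          gcongr
      _ = Real.exp (N * (3 * Real.log 2) + ((q + 1) * la - k * xi)) := by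
          rw [← mul_pow, show (2 : ℝ) * 4 = Real.exp (3 * Real.log 2) by rw [hlog8]; norm_num,
            ← Real.exp_nat_mul, ← Real.exp_nat_mul, ← Real.exp_nat_mul, ← Real.exp_add,
            ← Real.exp_add]
          congr 1
          push_cast
          ring
  refine le_trans hL1 ?_
  have hR : (Real.exp (-(2 * v)) / 8) ^ N * (Real.exp (-(θ ^ 2 * (r * ell) / 20000)) / 4) =
      Real.exp (-(2 * N * v) - N * (3 * Real.log 2) - θ ^ 2 * (r * ell) / 20000 -
        2 * Real.log 2) := by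
    have h4 : Real.exp (2 * Real.log 2) = 4 := by
      have : (2 : ℝ) * Real.log 2 = Real.log 4 := by
        rw [show (4 : ℝ) = 2 ^ 2 by norm_num, Real.log_pow]; norm_num
      rw [this, Real.exp_log (by norm_num)]
    rw [show (Real.exp (-(2 * v)) / 8) = Real.exp (-(2 * v) - 3 * Real.log 2) by
      rw [Real.exp_sub, hlog8], show Real.exp (-(θ ^ 2 * (r * ell) / 20000)) / 4 =
      Real.exp (-(θ ^ 2 * (r * ell) / 20000) - 2 * Real.log 2) by rw [Real.exp_sub, h4],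
      ← Real.exp_nat_mul, ← Real.exp_add]
    congr 1
    ring
  rw [hR]
  apply Real.exp_le_exp.mpr
  -- the main inequality
  set s : ℝ := (1 - x) * N / 6 with hs
  have hs1 : s ≤ q + 1 := h.hq2
  have h1 : ((q : ℝ) + 1) * la - k * xi ≤ s * (la + xi) - 2 * N * xi := by
    have h2 : ((q : ℝ) + 1) * la - k * xi = (q + 1) * (la + xi) - 2 * N * xi := by
      rw [← hkqR]; ring
    rw [h2]
    have h3 : ((q : ℝ) + 1) * (la + xi) ≤ s * (la + xi) :=
      mul_le_mul_of_nonpos_right hs1 hlaxi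
    linarith
  have hN0 : (0 : ℝ) ≤ 2 * N := by linarith
  have h2 : 2 * N * v ≤ 2 * N * ((1 - (1 - x) / 12) * xi + (1 - x) / 12 * g -
      (1 - x) ^ 2 / 24 * (l * e)) := mul_le_mul_of_nonneg_left hvle hN0
  have h3 : s * (la + xi) - 2 * N * xi + 2 * N * ((1 - (1 - x) / 12) * xi + (1 - x) / 12 * g -
      (1 - x) ^ 2 / 24 * (l * e)) = s * (la + g) - N * ((1 - x) ^ 2 / 24) * (2 * l * e) := by
    rw [hs]; ring
  have hs0 : 0 ≤ s := by
    rw [hs]
    have : 0 ≤ 1 - x := by linarith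
    positivity
  have hlag : la + g ≤ r1 * (0.752 * ell) := by
    have h4 : (10 : ℝ) ^ 7 ≤ r1 * 1 := by linarith
    have h5 : r1 * 1000 ≤ r1 * ell := mul_le_mul_of_nonneg_left hell hr10.le
    linarith
  have hsl : s * (la + g) ≤ s * (r1 * (0.752 * ell)) := mul_le_mul_of_nonneg_left hlag hs0
  have hsl2 : s * (r1 * (0.752 * ell)) ≤ s * (r1 * (0.00752 * ((1 - x) * L))) := by
    refine mul_le_mul_of_nonneg_left (mul_le_mul_of_nonneg_left ?_ hr10.le) hs0
    linarith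
  have hle : W ≤ 2 * l * e := le_trans hgW (mul_le_mul_of_nonneg_left hepsle hl0)
  have hΔ : N * ((1 - x) ^ 2 / 24) * W ≤ N * ((1 - x) ^ 2 / 24) * (2 * l * e) :=
    mul_le_mul_of_nonneg_left hle (by positivity)
  have h6 : s * (la + g) - N * ((1 - x) ^ 2 / 24) * (2 * l * e) ≤
      -(N * ((1 - x) ^ 2) * W / 26) := by
    have h7 : s * (r1 * (0.00752 * ((1 - x) * L))) = N * ((1 - x) ^ 2) * W * (0.00752 / 6) := by
      rw [hs, hW]; ring
    have h8 : 0 ≤ N * ((1 - x) ^ 2) * W := by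
      rw [hW]; positivity
    linarith
  have h7 : N * θ ^ 2 * W ≤ N * ((1 - x) ^ 2) * W := by
    have h8 : θ ^ 2 ≤ (1 - x) ^ 2 := by
      apply pow_le_pow_left₀ hθ0.le
      linarith
    have h9 : 0 ≤ (N : ℝ) * W := by rw [hW]; positivity
    have h10 := aux5 h8 h9
    linarith
  have h8 : 4.1592 * N + 1.3864 ≤ N * θ ^ 2 * W / 1000 := by
    have h9 : (10 : ℝ) ^ 7 * 10 ^ 8 ≤ (θ ^ 2 * r1) * L :=
      mul_le_mul hr2 hL (by norm_num) (by positivity)
    have h10 : N * θ ^ 2 * W = N * ((θ ^ 2 * r1) * L) := by rw [hW]; ring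
    rw [h10]
    have h11 : (N : ℝ) * (10 ^ 7 * 10 ^ 8) ≤ N * ((θ ^ 2 * r1) * L) :=
      mul_le_mul_of_nonneg_left h9 (by linarith)
    linarith
  have h9 : r * ell ≤ 65 * (N * W) := by
    have h10 := h.hr2
    have h11 : 64 * L * N * ((r1 : ℝ) + 1) ≤ 65 * (N * W) := by
      rw [hW]
      have h12 : 0 ≤ L * N := by positivity
      have h13 : L * N * (64 * (r1 + 1)) ≤ L * N * (65 * r1) :=
        mul_le_mul_of_nonneg_left (by linarith) h12
      linarith
    linarith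
  have h10 : θ ^ 2 * (r * ell) ≤ 65 * (N * θ ^ 2 * W) := by
    have := mul_le_mul_of_nonneg_left h9 (sq_nonneg θ)
    linarith
  have h11 : N * Real.log 2 ≤ N * 0.6932 := mul_le_mul_of_nonneg_left hlog2 (by linarith)
  linarith

end Pool.Agent.Helper34.LL
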